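import Pool.Agent.helper41.HFE.SpecK

/-!
# Project HFE (MP_3221a1_ag), row UNK: all `Bg` curves are associated
-/

set_option autoImplicit false

open Polynomial Module Pool.Agent.HFN

namespace Pool.Agent.HFE

noncomputable section

theorem UNK : UNK_stmt := by
  intro hXX hXY κ Z g g' hκ hg hg'
  rcases hg with hg | hg <;> rcases hg' with hg' | hg'
  · exact hXX κ Z g g' hκ hg hg'
  · exact hXY κ Z g g' hκ hg hg'
  · exact (hXY κ Z g' g hκ hg' hg).symm
  · have h1 := hXX κ (Z.image Prod.swap) (sw g) (sw g') hκ hg hg'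
    have h2 := h1.map sw
    rw [sw_sw, sw_sw] at h2
    exact h2

end

end Pool.Agent.HFE
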